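import Pool.Agent.TH463.FF.Scales

/-!
The image in the circle of a field of Hausdorff dimension zero.
-/

set_option autoImplicit false

open MeasureTheory Filter Topology Set
open scoped ENNReal

namespace Pool.Agent.TH463.FF

open Pool.Agent.W764.FB

lemma mem_circ_iff {F : Subfield ℝ} (x : ℝ) : (x : T) ∈ circ F ↔ x ∈ F := by
  constructor
  · rintro ⟨y, hy, hyx⟩
    have h1 : ((x - y : ℝ) : T) = 0 := by
      rw [AddCircle.coe_sub]
      dsimp only at hyx
      rw [hyx, sub_self]
    obtain ⟨n, hn⟩ := (AddCircle.coe_eq_zero_iff 1).1 h1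
    have h2 : x = y + n := by
      rw [zsmul_eq_mul, mul_one] at hn
      linarith
    rw [h2]
    exact F.add_mem hy (intCast_mem F n)
  · intro hx
    exact ⟨x, hx, rfl⟩

lemma preimage_circ {F : Subfield ℝ} : (fun x : ℝ => (x : T)) ⁻¹' circ F = F := by
  ext x
  exact mem_circ_iff x

lemma meas_circ {F : Subfield ℝ} (h : IsSigmaCompact (F : Set ℝ)) : MeasurableSet (circ F) := by
  obtain ⟨K, hK, hKF⟩ := h
  unfold circ
  rw [← hKF, image_iUnion]
  refine MeasurableSet.iUnion fun n => ?_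
  exact ((hK n).image (AddCircle.continuous_mk' 1)).isClosed.measurableSet

lemma vol_circ {F : Subfield ℝ} (h : IsSigmaCompact (F : Set ℝ)) (hd : dimH (F : Set ℝ) = 0) :
    (volume : Measure T) (circ F) = 0 := by
  have h1 : volume (F : Set ℝ) = 0 := by
    have h2 : Measure.hausdorffMeasure (((1 : NNReal)) : ℝ) (F : Set ℝ) = 0 := by
      apply hausdorffMeasure_of_dimH_lt
      rw [hd]
      norm_num
    rw [NNReal.coe_one, hausdorffMeasure_real] at h2
    exact h2
  have h3 := (AddCircle.measurePreserving_mk 1 0).measure_preimage (meas_circ h).nullMeasurableSet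
  rw [← h3]
  refine le_antisymm ((Measure.restrict_apply_le _ _).trans ?_) zero_le
  have h4 : ((fun x : ℝ => (x : T)) ⁻¹' circ F) = F := preimage_circ
  exact (measure_mono h4.le).trans h1.le

lemma smul_circ {F : Subfield ℝ} {n : ℕ} (hn : 0 < n) (x : T) : n • x ∈ circ F ↔ x ∈ circ F := by
  obtain ⟨y, rfl⟩ := QuotientAddGroup.mk_surjective x
  have h1 : (n • ((y : ℝ) : T)) = (((n : ℝ) * y : ℝ) : T) := by
    rw [← AddCircle.coe_nsmul, nsmul_eq_mul]
  change n • ((y : ℝ) : T) ∈ circ F ↔ ((y : ℝ) : T) ∈ circ F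
  rw [h1, mem_circ_iff, mem_circ_iff]
  constructor
  · intro h
    have hn0 : (n : ℝ) ≠ 0 := by positivity
    have h2 : y = (n : ℝ)⁻¹ * ((n : ℝ) * y) := by field_simp
    rw [h2]
    exact F.mul_mem (F.inv_mem (natCast_mem F n)) h
  · intro h
    exact F.mul_mem (natCast_mem F n) h

/-- the decomposition of the measure along the small field -/
lemma along {μ : Measure T} [IsProbabilityMeasure μ] {F : Subfield ℝ}
    (h : IsSigmaCompact (F : Set ℝ)) (hd : dimH (F : Set ℝ) = 0) {D : Set T}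
    (hD : μ.restrict D = μ D • (volume : Measure T)) (hDF : μ (Dᶜ \ circ F) = 0) :
    μ.restrict (circ F)ᶜ = μ (circ F)ᶜ • (volume : Measure T) ∧ (μ = volume ↔ μ (circ F) = 0) := by
  have hm := meas_circ h
  have h0 : μ (D ∩ circ F) = 0 := by
    have h1 : μ.restrict D (circ F) = μ (circ F ∩ D) := Measure.restrict_apply hm
    rw [hD, Measure.smul_apply, vol_circ h hd, smul_zero] at h1
    rw [inter_comm]
    exact h1.symm
  have hae : ((circ F)ᶜ : Set T) =ᵐ[μ] D := by
    rw [eventuallyEq_set]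
    have h2 : ∀ᵐ x ∂μ, x ∉ D ∩ circ F := measure_eq_zero_iff_ae_notMem.1 h0
    have h3 : ∀ᵐ x ∂μ, x ∉ Dᶜ \ circ F := measure_eq_zero_iff_ae_notMem.1 hDF
    filter_upwards [h2, h3] with x hx2 hx3
    simp only [mem_inter_iff, Set.mem_sdiff, mem_compl_iff] at hx2 hx3 ⊢
    tauto
  have h4 : μ.restrict (circ F)ᶜ = μ (circ F)ᶜ • (volume : Measure T) := by
    rw [Measure.restrict_congr_set hae, hD, measure_congr hae]
  refine ⟨h4, ?_, ?_⟩
  · intro h5
    rw [h5]
    exact vol_circ h hd
  · intro h5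
    have h6 : μ (circ F)ᶜ = 1 := (prob_compl_eq_one_iff hm).2 h5
    rw [h6, one_smul] at h4
    rw [← h4]
    refine (Measure.restrict_eq_self_of_ae_mem ?_).symm
    rw [ae_iff]
    simpa using h5

end Pool.Agent.TH463.FF
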