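import Pool.Agent.W764.FB.Cover

/-!
The covering lemma at all small scales and with arbitrary exponents: a measure for which `x ↦ p x` is
injective on a set of full measure is, up to `κ`, carried by `K` arcs of radius `ρ` with
`ρ K ^ A ≤ c`, for all small `ρ`.
-/

set_option autoImplicit false

open MeasureTheory Filter Topology Set
open scoped ENNReal

namespace Pool.Agent.TH463.FF

open Pool.Agent.H706R2.Ren (U labels)
open Pool.Agent.W764.FB

/-- the covering at the scales `η / p ^ (b g)` -/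
theorem coverN {p : ℕ} (hp : 2 ≤ p) (μ : Measure T) [IsProbabilityMeasure μ]
    (hinv : MeasurePreserving (fun x : T => p • x) μ μ) (h : EssInj p μ) (A : ℕ) {κ : ℝ} (hκ : 0 < κ) :
    ∃ (η D : ℝ) (b : ℕ), 0 < η ∧ 0 < D ∧ 1 ≤ b ∧ ∀ g : ℕ, 1 ≤ g → ∃ (K : ℕ) (cen : Fin K → T), 1 ≤ K ∧
      (K : ℝ) ^ A ≤ D * (1 / 2) ^ g * ((p : ℝ) ^ b) ^ g ∧ μ.real (U cen (η / (p : ℝ) ^ (b * g)))ᶜ ≤ κ := by
  classical
  have hpR : (2 : ℝ) ≤ p := by exact_mod_cast hp
  obtain ⟨Q1, lab1, hlab1⟩ := labels (ε := 1 / (2 * (p : ℝ))) (by positivity)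
  set s : ℕ := 4 * (A + 1) * (Q1 + 1) with hs
  have hs1 : 1 ≤ s := by
    rw [hs]
    exact Nat.mul_pos (by omega) (by omega)
  have hsR : (0 : ℝ) < s := by exact_mod_cast hs1
  have hq : (1 + (Q1 : ℝ) / s) ^ A ≤ 3 / 2 := by
    have h1 : (Q1 : ℝ) / s ≤ 1 / (4 * (A + 1)) := by
      rw [div_le_div_iff₀ hsR (by positivity), hs]
      push_cast
      nlinarith [show (0 : ℝ) ≤ A from Nat.cast_nonneg A, show (0 : ℝ) ≤ Q1 from Nat.cast_nonneg Q1]
    have h2 : 1 + (Q1 : ℝ) / s ≤ Real.exp (1 / (4 * (A + 1))) := by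
      have := Real.add_one_le_exp (1 / (4 * ((A : ℝ) + 1)))
      linarith
    have h3 : (1 + (Q1 : ℝ) / s) ^ A ≤ Real.exp (1 / 4) := by
      calc (1 + (Q1 : ℝ) / s) ^ A ≤ (Real.exp (1 / (4 * (A + 1)))) ^ A := by gcongr
        _ = Real.exp (A * (1 / (4 * (A + 1)))) := by rw [← Real.exp_nat_mul]
        _ ≤ Real.exp (1 / 4) := by
            apply Real.exp_le_exp.2
            rw [mul_one_div, div_le_div_iff₀ (by positivity) (by norm_num)]
            nlinarith [show (0 : ℝ) ≤ A from Nat.cast_nonneg A]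
    have h4 : Real.exp (1 / 4) ≤ 3 / 2 := by
      have h5 : Real.exp (1 / 4) ^ 4 = Real.exp 1 := by
        rw [← Real.exp_nat_mul]
        norm_num
      have h6 := Real.exp_one_lt_d9
      by_contra hcon
      push Not at hcon
      have h7 : (3 / 2 : ℝ) ^ 4 < Real.exp (1 / 4) ^ 4 := pow_lt_pow_left₀ hcon (by norm_num) (by norm_num)
      rw [h5] at h7
      norm_num at h7
      linarith
    exact h3.trans h4
  obtain ⟨b, hb⟩ : ∃ b : ℕ, (s : ℝ) ^ A * (3 / 4 : ℝ) ^ b < 1 / 2 := by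
    have h1 : Tendsto (fun b : ℕ => (s : ℝ) ^ A * (3 / 4 : ℝ) ^ b) atTop (𝓝 ((s : ℝ) ^ A * 0)) :=
      (tendsto_pow_atTop_nhds_zero_of_lt_one (by norm_num) (by norm_num)).const_mul _
    rw [mul_zero] at h1
    exact (h1.eventually (gt_mem_nhds (show (0 : ℝ) < 1 / 2 by norm_num))).exists
  have hb1 : 1 ≤ b := by
    rcases Nat.eq_zero_or_pos b with h0 | h0
    · rw [h0, pow_zero, mul_one] at hb
      have h1 : (1 : ℝ) ≤ (s : ℝ) ^ A := one_le_pow₀ (by exact_mod_cast hs1)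
      linarith
    · exact h0
  have hbR : (0 : ℝ) < b := by exact_mod_cast hb1
  obtain ⟨Z, hZm, hZκ, η, hη, hZ⟩ := local_inj (by omega : 0 < p) μ h (ε := κ / b) (by positivity)
  set η' : ℝ := min η (1 / 4) with hη'
  have hη'0 : 0 < η' := lt_min hη (by norm_num)
  have hZ' : ∀ x ∈ Z, ∀ y ∈ Z, ‖p • (x - y)‖ ≤ η' → ‖x - y‖ ≤ ‖p • (x - y)‖ / p :=
    fun x hx y hy hxy => hZ x hx y hy (hxy.trans (min_le_left _ _))
  obtain ⟨Q0, lab0, hlab0⟩ := labels (ε := η') hη'0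
  have hQ0 : 1 ≤ Q0 := by
    rcases Nat.eq_zero_or_pos Q0 with h0 | h0
    · subst h0
      exact (lab0 0).elim0
    · exact h0
  have hQ0R : (0 : ℝ) < Q0 := by exact_mod_cast hQ0
  refine ⟨η', (Q0 : ℝ) ^ A, b, hη'0, by positivity, hb1, fun g1 hg1 => ?_⟩
  have hg1R : (0 : ℝ) < g1 := by exact_mod_cast (by omega : 0 < g1)
  set N : ℕ := b * g1 with hN
  set CS := Finset.univ.filter fun c : Fin N → Fin (Q1 + 1) =>
      (Finset.univ.filter fun j => c j ≠ 0).card ≤ g1 with hCS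
  set M : ℕ := CS.card with hM
  have hMle : (M : ℝ) ≤ (s : ℝ) ^ g1 * (1 + (Q1 : ℝ) / s) ^ N := card_codes Q1 s N g1 hs1
  set Good : Set T := {x | Pool.Agent.H706R2.Ren.out p Z N x ≤ g1} with hGood
  have hgc : ∀ x ∈ Good, code p Z lab1 N x ∈ CS := by
    intro x hx
    rw [hCS, Finset.mem_filter]
    refine ⟨Finset.mem_univ _, ?_⟩
    rw [card_code]
    exact hx
  have hM1 : 1 ≤ M := by
    rw [hM, Nat.one_le_iff_ne_zero, Ne, Finset.card_eq_zero]
    intro h0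
    have : (fun _ => 0 : Fin N → Fin (Q1 + 1)) ∈ CS := by
      rw [hCS, Finset.mem_filter]
      refine ⟨Finset.mem_univ _, ?_⟩
      simp
    rw [h0] at this
    exact absurd this (Finset.notMem_empty _)
  set e : Fin (Q0 * M) ≃ Fin Q0 × CS := (finProdFinEquiv (m := Q0) (n := M)).symm.trans
    (Equiv.prodCongr (Equiv.refl _) CS.equivFin.symm) with he
  set pick : Fin Q0 × CS → T := fun a => if hx : ∃ x ∈ Good, lab0 ((p ^ N) • x) = a.1 ∧
    code p Z lab1 N x = a.2 then hx.choose else 0 with hpick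
  refine ⟨Q0 * M, fun i => pick (e i), Nat.mul_pos hQ0 hM1, ?_, ?_⟩
  · have h1 : (M : ℝ) ^ A ≤ ((s : ℝ) ^ A * (3 / 2 : ℝ) ^ b) ^ g1 := by
      calc (M : ℝ) ^ A ≤ ((s : ℝ) ^ g1 * (1 + (Q1 : ℝ) / s) ^ N) ^ A := by gcongr
        _ = ((s : ℝ) ^ A * ((1 + (Q1 : ℝ) / s) ^ A) ^ b) ^ g1 := by
            rw [hN, mul_pow, mul_pow, ← pow_mul, ← pow_mul, ← pow_mul, ← pow_mul, ← pow_mul]
            congr 2 <;> ring
        _ ≤ ((s : ℝ) ^ A * (3 / 2 : ℝ) ^ b) ^ g1 := by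
            gcongr
    have h2 : (3 / 2 : ℝ) ^ b ≤ (3 / 4) ^ b * (p : ℝ) ^ b := by
      rw [← mul_pow]
      gcongr
      linarith
    calc (((Q0 * M : ℕ) : ℝ)) ^ A = (Q0 : ℝ) ^ A * (M : ℝ) ^ A := by push_cast; rw [mul_pow]
      _ ≤ (Q0 : ℝ) ^ A * ((s : ℝ) ^ A * ((3 / 4) ^ b * (p : ℝ) ^ b)) ^ g1 := by
          gcongr
          exact h1.trans (by gcongr)
      _ = (Q0 : ℝ) ^ A * ((s : ℝ) ^ A * (3 / 4) ^ b) ^ g1 * ((p : ℝ) ^ b) ^ g1 := by
          rw [← mul_assoc, mul_pow ((s : ℝ) ^ A * (3 / 4) ^ b)]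
          ring
      _ ≤ (Q0 : ℝ) ^ A * (1 / 2) ^ g1 * ((p : ℝ) ^ b) ^ g1 := by
          gcongr
  · have hsub : (U (fun i => pick (e i)) (η' / (p : ℝ) ^ (b * g1)))ᶜ ⊆
        {y | (g1 : ℝ) ≤ Pool.Agent.H706R2.Ren.out p Z N y} := by
      intro x hx
      by_contra hcon
      apply hx
      have hxG : x ∈ Good := by
        simp only [mem_ofPred_eq, not_le] at hcon
        have : Pool.Agent.H706R2.Ren.out p Z N x < g1 := by exact_mod_cast hcon
        exact this.le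
      unfold U
      rw [mem_iUnion]
      set a : Fin Q0 × CS := (lab0 ((p ^ N) • x), ⟨code p Z lab1 N x, hgc x hxG⟩) with ha
      refine ⟨e.symm a, ?_⟩
      have hex : ∃ x ∈ Good, lab0 ((p ^ N) • x) = a.1 ∧ code p Z lab1 N x = a.2 :=
        ⟨x, hxG, rfl, rfl⟩
      have hp1 : pick (e (e.symm a)) = hex.choose := by
        rw [Equiv.apply_symm_apply, hpick]
        simp only [dif_pos hex]
      show x ∈ Metric.closedBall (pick (e (e.symm a))) _
      rw [Metric.mem_closedBall, dist_eq_norm, hp1]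
      have hsp := hex.choose_spec
      refine same_code (by omega : 0 < p) (min_le_right _ _) hZ' hlab1 N x hex.choose ?_ ?_
      · rw [smul_sub]
        exact hlab0 _ _ hsp.2.1.symm
      · exact hsp.2.2.symm
    have h1 := markov_gen p μ hinv hZm N (a := (g1 : ℝ))
    have h2 : (N : ℝ) * μ.real Zᶜ ≤ g1 * κ := by
      calc (N : ℝ) * μ.real Zᶜ ≤ N * (κ / b) := by gcongr
        _ = g1 * κ := by rw [hN]; push_cast; field_simp
    have h3 : μ.real {y | (g1 : ℝ) ≤ Pool.Agent.H706R2.Ren.out p Z N y} ≤ κ :=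
      le_of_mul_le_mul_left (h1.trans h2) hg1R
    exact (measureReal_mono hsub).trans h3

lemma U_mono {K : ℕ} (cen : Fin K → T) {r s : ℝ} (h : r ≤ s) : U cen r ⊆ U cen s := by
  unfold U
  exact iUnion_mono fun i => Metric.closedBall_subset_closedBall h

/-- **The covering lemma at all small scales.** -/
theorem coverA {p : ℕ} (hp : 2 ≤ p) (μ : Measure T) [IsProbabilityMeasure μ]
    (hinv : MeasurePreserving (fun x : T => p • x) μ μ) (h : EssInj p μ) (A : ℕ) {κ c : ℝ}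
    (hκ : 0 < κ) (hc : 0 < c) : ∃ ρ0 : ℝ, 0 < ρ0 ∧ ∀ ρ : ℝ, 0 < ρ → ρ ≤ ρ0 →
      ∃ (K : ℕ) (cen : Fin K → T), 1 ≤ K ∧ ρ * (K : ℝ) ^ A ≤ c ∧ μ.real (U cen ρ)ᶜ ≤ κ := by
  classical
  have hpR : (2 : ℝ) ≤ p := by exact_mod_cast hp
  obtain ⟨η, D, b, hη, hD, hb, H⟩ := coverN hp μ hinv h A hκ
  have hpb : (1 : ℝ) < (p : ℝ) ^ b := one_lt_pow₀ (by linarith) (by omega)
  have hpb0 : (0 : ℝ) < (p : ℝ) ^ b := by positivity
  obtain ⟨G, hG⟩ : ∃ G : ℕ, η * D * (p : ℝ) ^ b * (1 / 2 : ℝ) ^ G < c := by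
    have h1 : Tendsto (fun G : ℕ => η * D * (p : ℝ) ^ b * (1 / 2 : ℝ) ^ G) atTop
        (𝓝 (η * D * (p : ℝ) ^ b * 0)) :=
      (tendsto_pow_atTop_nhds_zero_of_lt_one (by norm_num) (by norm_num)).const_mul _
    rw [mul_zero] at h1
    exact (h1.eventually (gt_mem_nhds hc)).exists
  refine ⟨η / ((p : ℝ) ^ b) ^ (G + 1), by positivity, fun ρ hρ hρ0 => ?_⟩
  -- the least `g` with `η / p ^ (b g) ≤ ρ`
  have hex : ∃ g : ℕ, η / ((p : ℝ) ^ b) ^ g ≤ ρ := by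
    obtain ⟨g, hg⟩ := pow_unbounded_of_one_lt (η / ρ) hpb
    refine ⟨g, ?_⟩
    rw [div_lt_iff₀ hρ] at hg
    rw [div_le_iff₀ (by positivity)]
    linarith
  set g := Nat.find hex with hgdef
  have hg1 : η / ((p : ℝ) ^ b) ^ g ≤ ρ := Nat.find_spec hex
  have hGg : G + 1 ≤ g := by
    by_contra hcon
    push Not at hcon
    have h1 : ((p : ℝ) ^ b) ^ g < ((p : ℝ) ^ b) ^ (G + 1) := pow_lt_pow_right₀ hpb hcon
    have h2 : η / ((p : ℝ) ^ b) ^ (G + 1) < η / ((p : ℝ) ^ b) ^ g := by gcongr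
    linarith
  have hg2 : ρ < η / ((p : ℝ) ^ b) ^ (g - 1) := by
    have := Nat.find_min hex (m := g - 1) (by omega)
    linarith
  obtain ⟨K, cen, hK, hKA, hU⟩ := H g (by omega)
  refine ⟨K, cen, hK, ?_, ?_⟩
  · have e1 : ((p : ℝ) ^ b) ^ g = ((p : ℝ) ^ b) ^ (g - 1) * (p : ℝ) ^ b := by
      rw [← pow_succ]
      congr 1
      omega
    calc ρ * (K : ℝ) ^ A ≤ η / ((p : ℝ) ^ b) ^ (g - 1) * (D * (1 / 2) ^ g * ((p : ℝ) ^ b) ^ g) := by
          gcongr
      _ = η * D * (p : ℝ) ^ b * (1 / 2 : ℝ) ^ g := by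
          rw [e1]
          field_simp
      _ ≤ η * D * (p : ℝ) ^ b * (1 / 2 : ℝ) ^ G := by
          gcongr ?_ * ?_
          exact pow_le_pow_of_le_one (by norm_num) (by norm_num) (by omega)
      _ ≤ c := hG.le
  · refine (measureReal_mono ?_).trans hU
    apply compl_subset_compl.2
    apply U_mono
    rw [pow_mul]
    exact hg1

end Pool.Agent.TH463.FF
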