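import Pool.Agent.TH463.FF.Thin

/-!
Countable unions of compact thin sets, and the fields they generate.
-/

set_option autoImplicit false

open MeasureTheory Filter Topology Set Metric
open scoped ENNReal NNReal

namespace Pool.Agent.TH463.FF

/-- countable unions of compact thin sets -/
def Sig (S : Scale) (X : Set ℝ) : Prop :=
  ∃ 𝓔 : Set (Set ℝ), 𝓔.Countable ∧ (∀ E ∈ 𝓔, IsCompact E ∧ Thin S E) ∧ X = ⋃₀ 𝓔

variable {S : Scale}

lemma Sig.of_thin {E : Set ℝ} (h1 : IsCompact E) (h2 : Thin S E) : Sig S E :=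
  ⟨{E}, countable_singleton E, by rintro _ rfl; exact ⟨h1, h2⟩, by simp⟩

lemma Sig.iUnion {ι : Type*} [Countable ι] {X : ι → Set ℝ} (h : ∀ i, Sig S (X i)) :
    Sig S (⋃ i, X i) := by
  choose 𝓔 h1 h2 h3 using h
  refine ⟨⋃ i, 𝓔 i, countable_iUnion h1, ?_, ?_⟩
  · intro E hE
    obtain ⟨i, hi⟩ := mem_iUnion.1 hE
    exact h2 i E hi
  · rw [sUnion_iUnion]
    exact iUnion_congr h3

lemma Sig.union {X Y : Set ℝ} (hX : Sig S X) (hY : Sig S Y) : Sig S (X ∪ Y) := by
  rw [union_eq_iUnion]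
  refine Sig.iUnion fun b => ?_
  cases b
  · exact hY
  · exact hX

lemma Sig.dim_eq {X : Set ℝ} (h : Sig S X) : dimH X = 0 := by
  obtain ⟨𝓔, h1, h2, rfl⟩ := h
  rw [dimH_sUnion h1]
  simp only [ENNReal.iSup_eq_zero]
  intro E hE
  exact (h2 E hE).2.dim_eq

lemma Sig.isSigmaCompact {X : Set ℝ} (h : Sig S X) : IsSigmaCompact X := by
  obtain ⟨𝓔, h1, h2, rfl⟩ := h
  exact isSigmaCompact_sUnion_of_isCompact h1 fun E hE => (h2 E hE).1

/-- Lipschitz functions are Hölder functions -/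
lemma hol_of_lip {k : ℕ} {C : Set (Fin k → ℝ)} {f : (Fin k → ℝ) → ℝ} {M : ℝ≥0}
    (h : LipschitzOnWith M f C) : ∃ M r : ℝ≥0, 0 < r ∧ HolderOnWith M r f C :=
  ⟨M, 1, one_pos, holderOnWith_one.2 h⟩

/-- a Hölder function on a closed subset of `ℝ ^ k` -/
structure Piece where
  k : ℕ
  C : Set (Fin k → ℝ)
  f : (Fin k → ℝ) → ℝ
  closed : IsClosed C
  lip : ∃ M r : ℝ≥0, 0 < r ∧ HolderOnWith M r f C

lemma Sig.piece {X : Set ℝ} (hX : Sig S X) (P : Piece) :
    Sig S (P.f '' (P.C ∩ {x | ∀ i, x i ∈ X})) := by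
  obtain ⟨𝓔, h1, h2, rfl⟩ := hX
  have : Countable 𝓔 := h1.to_subtype
  obtain ⟨M, r, hr, hM⟩ := P.lip
  have heq : P.f '' (P.C ∩ {x | ∀ i, x i ∈ ⋃₀ 𝓔}) =
      ⋃ e : Fin P.k → 𝓔, P.f '' (P.C ∩ {x | ∀ i, x i ∈ (e i : Set ℝ)}) := by
    rw [← image_iUnion]
    congr 1
    ext x
    simp only [mem_inter_iff, mem_ofPred_eq, mem_iUnion, mem_sUnion]
    constructor
    · rintro ⟨h3, h4⟩
      choose e he hx using h4
      exact ⟨fun i => ⟨e i, he i⟩, h3, hx⟩
    · rintro ⟨e, h3, h4⟩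
      exact ⟨h3, fun i => ⟨e i, (e i).2, h4 i⟩⟩
  rw [heq]
  refine Sig.iUnion fun e => Sig.of_thin ?_ ?_
  · have h3 : IsCompact {x : Fin P.k → ℝ | ∀ i, x i ∈ (e i : Set ℝ)} := by
      have := isCompact_univ_pi (s := fun i => (e i : Set ℝ)) fun i => (h2 _ (e i).2).1
      convert! this using 1
      ext x
      simp
    have h4 : IsCompact (P.C ∩ {x : Fin P.k → ℝ | ∀ i, x i ∈ (e i : Set ℝ)}) := h3.inter_left P.closed
    exact h4.image_of_continuousOn ((hM.mono inter_subset_left).continuousOn hr)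
  · refine Thin.image (M := M) ((Thin.pi fun i => (h2 _ (e i).2).2).mono inter_subset_right) hr ?_
    exact hM.mono inter_subset_left

/-- the closure of a set under countably many pieces -/
theorem clo_exists {PP : Set Piece} (h : PP.Countable) {X : Set ℝ} (hX : Sig S X) :
    ∃ Y : Set ℝ, X ⊆ Y ∧ Sig S Y ∧ ∀ P ∈ PP, ∀ x ∈ P.C, (∀ j, x j ∈ Y) → P.f x ∈ Y := by
  classical
  have : Countable PP := h.to_subtype
  set step : Set ℝ → Set ℝ := fun Y => Y ∪ ⋃ P : PP, P.1.f '' (P.1.C ∩ {x | ∀ i, x i ∈ Y}) with hstep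
  set Y : ℕ → Set ℝ := fun n => step^[n] X with hY
  have h0 : Y 0 = X := rfl
  have hs : ∀ n, Y (n + 1) = step (Y n) := fun n => Function.iterate_succ_apply' _ _ _
  have hmono : Monotone Y := by
    refine monotone_nat_of_le_succ fun n => ?_
    rw [hs]
    exact subset_union_left
  have hsig : ∀ n, Sig S (Y n) := by
    intro n
    induction n with
    | zero => exact hX
    | succ n ih =>
      rw [hs]
      exact ih.union (Sig.iUnion fun P => ih.piece P.1)
  refine ⟨⋃ n, Y n, h0 ▸ subset_iUnion Y 0, Sig.iUnion hsig, ?_⟩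
  intro P hP x hx hxY
  choose n hn using fun j => mem_iUnion.1 (hxY j)
  set N := Finset.univ.sup n with hN
  have h1 : ∀ j, x j ∈ Y N := fun j => hmono (Finset.le_sup (Finset.mem_univ j)) (hn j)
  refine mem_iUnion.2 ⟨N + 1, ?_⟩
  rw [hs]
  refine Or.inr (mem_iUnion.2 ⟨⟨P, hP⟩, ⟨x, ⟨hx, h1⟩, rfl⟩⟩)

/-! ### the pieces of the field operations -/

/-- the constant one -/
noncomputable def pOne : Piece where
  k := 0
  C := univ
  f := fun _ => 1
  closed := isClosed_univ
  lip := hol_of_lip (M := 0) (LipschitzWith.const 1).lipschitzOnWith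

/-- negation -/
noncomputable def pNeg : Piece where
  k := 1
  C := univ
  f := fun x => - x 0
  closed := isClosed_univ
  lip := hol_of_lip (M := 1) (LipschitzOnWith.of_dist_le_mul fun x _ y _ => by
    simp only [NNReal.coe_one, one_mul, dist_neg_neg]
    exact dist_le_pi_dist x y 0)

/-- addition -/
noncomputable def pAdd : Piece where
  k := 2
  C := univ
  f := fun x => x 0 + x 1
  closed := isClosed_univ
  lip := hol_of_lip (M := 2) (LipschitzOnWith.of_dist_le_mul fun x _ y _ => by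
    have h0 := dist_le_pi_dist x y 0
    have h1 := dist_le_pi_dist x y 1
    have h2 := dist_add_add_le (x 0) (x 1) (y 0) (y 1)
    rw [NNReal.coe_ofNat]
    linarith)

/-- multiplication on a box -/
noncomputable def pMul (m : ℕ) : Piece where
  k := 2
  C := {x | |x 0| ≤ m ∧ |x 1| ≤ m}
  f := fun x => x 0 * x 1
  closed := (isClosed_le (continuous_apply 0).abs continuous_const).inter
    (isClosed_le (continuous_apply 1).abs continuous_const)
  lip := hol_of_lip (M := 2 * m) (LipschitzOnWith.of_dist_le_mul fun x hx y hy => by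
    have h0 := dist_le_pi_dist x y 0
    have h1 := dist_le_pi_dist x y 1
    obtain ⟨hx0, hx1⟩ := hx
    obtain ⟨hy0, hy1⟩ := hy
    rw [Real.dist_eq] at h0 h1 ⊢
    have h2 : x 0 * x 1 - y 0 * y 1 = (x 0 - y 0) * x 1 + y 0 * (x 1 - y 1) := by ring
    have h3 : (0 : ℝ) ≤ m := Nat.cast_nonneg m
    calc |x 0 * x 1 - y 0 * y 1| ≤ |x 0 - y 0| * |x 1| + |y 0| * |x 1 - y 1| := by
          rw [h2, ← abs_mul, ← abs_mul]
          exact abs_add_le _ _
      _ ≤ dist x y * m + m * dist x y := by gcongr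
      _ = ((2 * m : ℝ≥0) : ℝ) * dist x y := by push_cast; ring)

/-- inversion away from zero -/
noncomputable def pInv (m : ℕ) : Piece where
  k := 1
  C := {x | 1 ≤ (m + 1) * |x 0|}
  f := fun x => (x 0)⁻¹
  closed := isClosed_le continuous_const (continuous_const.mul (continuous_apply 0).abs)
  lip := hol_of_lip (M := (m + 1) ^ 2) (LipschitzOnWith.of_dist_le_mul fun x hx y hy => by
    have h0 := dist_le_pi_dist x y 0
    have hx' : 1 ≤ ((m : ℝ) + 1) * |x 0| := hx
    have hy' : 1 ≤ ((m : ℝ) + 1) * |y 0| := hy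
    have hm : (0 : ℝ) < (m : ℝ) + 1 := by positivity
    have hx0 : 0 < |x 0| := by
      by_contra hcon
      have : |x 0| = 0 := le_antisymm (not_lt.1 hcon) (abs_nonneg _)
      rw [this] at hx'
      linarith
    have hy0 : 0 < |y 0| := by
      by_contra hcon
      have : |y 0| = 0 := le_antisymm (not_lt.1 hcon) (abs_nonneg _)
      rw [this] at hy'
      linarith
    have hxi : |x 0|⁻¹ ≤ (m : ℝ) + 1 := by
      rw [inv_le_iff_one_le_mul₀ hx0]
      exact hx'
    have hyi : |y 0|⁻¹ ≤ (m : ℝ) + 1 := by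
      rw [inv_le_iff_one_le_mul₀ hy0]
      exact hy'
    rw [Real.dist_eq] at h0 ⊢
    have hxn : x 0 ≠ 0 := abs_pos.1 hx0
    have hyn : y 0 ≠ 0 := abs_pos.1 hy0
    have h2 : (x 0)⁻¹ - (y 0)⁻¹ = (x 0)⁻¹ * (y 0)⁻¹ * (y 0 - x 0) := by field_simp
    calc |(x 0)⁻¹ - (y 0)⁻¹| = |x 0|⁻¹ * |y 0|⁻¹ * |x 0 - y 0| := by
          rw [h2, abs_mul, abs_mul, abs_inv, abs_inv, abs_sub_comm]
      _ ≤ ((m : ℝ) + 1) * ((m : ℝ) + 1) * dist x y := by gcongr
      _ = (((m + 1) ^ 2 : ℝ≥0) : ℝ) * dist x y := by push_cast; ring)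

/-- the value at `t` of the polynomial with coefficients `c` -/
noncomputable def pval {d : ℕ} (c : Fin (d + 1) → ℝ) (t : ℝ) : ℝ := ∑ i, c i * t ^ (i : ℕ)

lemma pval_cont {d : ℕ} : Continuous fun x : (Fin (d + 1) → ℝ) × ℝ => pval x.1 x.2 := by
  unfold pval
  fun_prop

/-- coefficient vectors with a zero in `[a, b]` -/
def hasZero (d : ℕ) (a b : ℝ) : Set (Fin (d + 1) → ℝ) := {c | ∃ t ∈ Icc a b, pval c t = 0}

lemma hasZero_closed (d : ℕ) (a b : ℝ) : IsClosed (hasZero d a b) := by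
  have h1 : IsClosed {x : (Icc a b) × (Fin (d + 1) → ℝ) | pval x.2 (x.1 : ℝ) = 0} := by
    refine isClosed_eq ?_ continuous_const
    exact pval_cont.comp (continuous_snd.prodMk (continuous_subtype_val.comp continuous_fst))
  have h2 := isClosedMap_snd_of_compactSpace _ h1
  convert! h2 using 1
  ext c
  simp [hasZero]

/-- the zero selected in `[a, b]` -/
noncomputable def theZero (d : ℕ) (a b : ℝ) (c : Fin (d + 1) → ℝ) : ℝ :=
  open Classical in if h : c ∈ hasZero d a b then h.choose else 0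

lemma theZero_spec {d : ℕ} {a b : ℝ} {c : Fin (d + 1) → ℝ} (h : c ∈ hasZero d a b) :
    theZero d a b c ∈ Icc a b ∧ pval c (theZero d a b c) = 0 := by
  unfold theZero
  rw [dif_pos h]
  exact h.choose_spec

/-- the zero in `[a, b]` of a polynomial which expands distances on `[a, b]` -/
noncomputable def pRoot (q : ℕ × ℚ × ℚ × ℕ) : Piece where
  k := q.1 + 1
  C := hasZero q.1 q.2.1 q.2.2.1 ∩ {c | ∀ s ∈ Icc (q.2.1 : ℝ) q.2.2.1, ∀ t ∈ Icc (q.2.1 : ℝ) q.2.2.1,
    |s - t| ≤ (q.2.2.2 + 1) * |pval c s - pval c t|}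
  f := theZero q.1 q.2.1 q.2.2.1
  closed := by
    refine (hasZero_closed _ _ _).inter ?_
    simp only [ofPred_forall]
    refine isClosed_iInter fun s => isClosed_iInter fun _ => isClosed_iInter fun t =>
      isClosed_iInter fun _ => isClosed_le continuous_const ?_
    have h1 : ∀ s : ℝ, Continuous fun c : Fin (q.1 + 1) → ℝ => pval c s := fun s =>
      pval_cont.comp (continuous_id.prodMk continuous_const)
    exact continuous_const.mul ((h1 s).sub (h1 t)).abs
  lip := by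
    obtain ⟨d, a, b, m⟩ := q
    dsimp only
    set R : ℝ≥0 := ⟨max |(a : ℝ)| |(b : ℝ)|, (abs_nonneg _).trans (le_max_left _ _)⟩ with hR
    refine hol_of_lip (M := (m + 1) * ∑ i : Fin (d + 1), R ^ (i : ℕ)) (LipschitzOnWith.of_dist_le_mul ?_)
    rintro c ⟨hc1, hc2⟩ c' ⟨hc1', hc2'⟩
    obtain ⟨h1, h2⟩ := theZero_spec hc1
    obtain ⟨h1', h2'⟩ := theZero_spec hc1'
    set t := theZero d a b c with ht
    set t' := theZero d a b c' with ht'
    have h3 := hc2 t h1 t' h1'
    have hR' : |t'| ≤ R := by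
      have h4 : |t'| ≤ max |(a : ℝ)| |(b : ℝ)| := abs_le_max_abs_abs h1'.1 h1'.2
      exact h4
    have h4 : |pval c t - pval c t'| ≤ (∑ i : Fin (d + 1), (R : ℝ) ^ (i : ℕ)) * dist c c' := by
      have h5 : pval c t - pval c t' = ∑ i : Fin (d + 1), (c' i - c i) * t' ^ (i : ℕ) := by
        rw [h2, ← h2']
        unfold pval
        rw [← Finset.sum_sub_distrib]
        refine Finset.sum_congr rfl fun i _ => ?_
        ring
      rw [h5, Finset.sum_mul]
      refine (Finset.abs_sum_le_sum_abs _ _).trans (Finset.sum_le_sum fun i _ => ?_)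
      have h6 := dist_le_pi_dist c' c i
      rw [Real.dist_eq] at h6
      rw [abs_mul, abs_pow, dist_comm c c', mul_comm]
      gcongr
    rw [Real.dist_eq]
    calc |t - t'| ≤ (m + 1) * |pval c t - pval c t'| := h3
      _ ≤ (m + 1) * ((∑ i : Fin (d + 1), (R : ℝ) ^ (i : ℕ)) * dist c c') := by gcongr
      _ = (((m + 1) * ∑ i : Fin (d + 1), R ^ (i : ℕ) : ℝ≥0) : ℝ) * dist c c' := by
          push_cast
          ring

/-- the countable family of pieces of the field operations and of the real roots -/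
noncomputable def fieldPieces : Set Piece :=
  {pOne, pNeg, pAdd} ∪ range pMul ∪ range pInv ∪ range pRoot

lemma fieldPieces_countable : fieldPieces.Countable := by
  unfold fieldPieces
  refine (((Set.Finite.countable ?_).union (countable_range _)).union (countable_range _)).union
    (countable_range _)
  exact toFinite _

end Pool.Agent.TH463.FF
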