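import Pool.Agent.TH463.FF.Field

/-!
The field generated by countably many compact thin sets, closed under real roots of polynomials and
under countably many given locally Lipschitz functions.
-/

set_option autoImplicit false

open MeasureTheory Filter Topology Set Metric
open scoped ENNReal NNReal

namespace Pool.Agent.TH463.FF

variable {S : Scale}

/-- a set closed under the field pieces is a field which is algebraically closed in the reals -/
theorem field_of_closed {Y : Set ℝ} (h : ∀ P ∈ fieldPieces, ∀ x ∈ P.C, (∀ j, x j ∈ Y) → P.f x ∈ Y) :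
    ∃ F : Subfield ℝ, (F : Set ℝ) = Y ∧ ∀ x : ℝ, IsAlgebraic F x → x ∈ F := by
  have hone : (1 : ℝ) ∈ Y := by
    refine h pOne (by simp [fieldPieces]) (fun i => i.elim0) (mem_univ _) fun j => j.elim0
  have hneg : ∀ x ∈ Y, -x ∈ Y := by
    intro x hx
    exact h pNeg (by simp [fieldPieces]) (fun _ : Fin 1 => x) (mem_univ _) fun j => hx
  have hadd : ∀ x ∈ Y, ∀ y ∈ Y, x + y ∈ Y := by
    intro x hx y hy
    refine h pAdd (by simp [fieldPieces]) (![x, y] : Fin 2 → ℝ) (mem_univ _) ?_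
    change ∀ j : Fin 2, (![x, y] : Fin 2 → ℝ) j ∈ Y
    rw [Fin.forall_fin_two]
    exact ⟨hx, hy⟩
  have hmul : ∀ x ∈ Y, ∀ y ∈ Y, x * y ∈ Y := by
    intro x hx y hy
    obtain ⟨m, hm⟩ := exists_nat_ge (max |x| |y|)
    refine h (pMul m) (by simp [fieldPieces]) (![x, y] : Fin 2 → ℝ)
      ⟨(le_max_left _ _).trans hm, (le_max_right _ _).trans hm⟩ ?_
    change ∀ j : Fin 2, (![x, y] : Fin 2 → ℝ) j ∈ Y
    rw [Fin.forall_fin_two]
    exact ⟨hx, hy⟩
  have hzero : (0 : ℝ) ∈ Y := by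
    have := hadd 1 hone (-1) (hneg 1 hone)
    simpa using this
  have hinv : ∀ x ∈ Y, x⁻¹ ∈ Y := by
    intro x hx
    rcases eq_or_ne x 0 with rfl | h0
    · simpa using hzero
    · obtain ⟨m, hm⟩ := exists_nat_ge (|x|⁻¹)
      have hx0 : 0 < |x| := abs_pos.2 h0
      refine h (pInv m) (by simp [fieldPieces]) (fun _ : Fin 1 => x) ?_ fun j => hx
      change 1 ≤ ((m : ℝ) + 1) * |x|
      rw [← inv_le_iff_one_le_mul₀ hx0]
      linarith
  let F : Subfield ℝ :=
    { carrier := Y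
      mul_mem' := fun {a b} ha hb => hmul a ha b hb
      one_mem' := hone
      add_mem' := fun {a b} ha hb => hadd a ha b hb
      zero_mem' := hzero
      neg_mem' := fun {a} ha => hneg a ha
      inv_mem' := fun a ha => hinv a ha }
  refine ⟨F, rfl, ?_⟩
  intro x hx
  have hxi : IsIntegral F x := hx.isIntegral
  set P := minpoly F x with hP
  have hsep : P.Separable := (minpoly.irreducible hxi).separable
  have hP0 : Polynomial.aeval x P = 0 := minpoly.aeval F x
  have hP1 : Polynomial.aeval x (Polynomial.derivative P) ≠ 0 := hsep.aeval_derivative_ne_zero hP0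
  set d := P.natDegree with hd
  set c : Fin (d + 1) → ℝ := fun i => ((P.coeff i : F) : ℝ) with hc
  have hev : ∀ t : ℝ, pval c t = Polynomial.eval t (P.map (algebraMap F ℝ)) := by
    intro t
    rw [Polynomial.eval_eq_sum_range, Polynomial.natDegree_map]
    unfold pval
    rw [Finset.sum_range]
    refine Finset.sum_congr rfl fun i _ => ?_
    rw [Polynomial.coeff_map]
    rfl
  have hpx : pval c x = 0 := by
    rw [hev, Polynomial.eval_map_algebraMap]
    exact hP0
  have hstrict : HasStrictDerivAt (fun t => pval c t)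
      (Polynomial.aeval x (Polynomial.derivative P)) x := by
    have h1 := (P.map (algebraMap F ℝ)).hasStrictDerivAt x
    rw [Polynomial.derivative_map, Polynomial.eval_map_algebraMap] at h1
    convert! h1 using 1
    funext t
    exact hev t
  set D := Polynomial.aeval x (Polynomial.derivative P) with hD
  have hD0 : 0 < |D| := abs_pos.2 hP1
  -- the expansion near `x`
  have hexp : ∀ᶠ p : ℝ × ℝ in 𝓝 (x, x), |p.1 - p.2| * (|D| / 2) ≤ |pval c p.1 - pval c p.2| := by
    have h1 := hstrict.hasStrictFDerivAt.isLittleO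
    have h2 := h1.def (show (0 : ℝ) < |D| / 2 by positivity)
    refine h2.mono fun p hp => ?_
    simp only [ContinuousLinearMap.toSpanSingleton_apply, smul_eq_mul, Real.norm_eq_abs] at hp
    have h3 : |(p.1 - p.2) * D| ≤ |pval c p.1 - pval c p.2| +
        |pval c p.1 - pval c p.2 - (p.1 - p.2) * D| := by
      have h4 := abs_sub_abs_le_abs_sub ((p.1 - p.2) * D) (pval c p.1 - pval c p.2)
      rw [abs_sub_comm ((p.1 - p.2) * D)] at h4
      linarith
    rw [abs_mul] at h3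
    linarith
  obtain ⟨ε, hε, hball⟩ := Metric.eventually_nhds_iff_ball.1 hexp
  obtain ⟨a, ha1, ha2⟩ := exists_rat_btwn (show x - ε / 2 < x by linarith)
  obtain ⟨b, hb1, hb2⟩ := exists_rat_btwn (show x < x + ε / 2 by linarith)
  obtain ⟨m, hm⟩ := exists_nat_ge (2 / |D|)
  have hin : ∀ s ∈ Icc (a : ℝ) b, |s - x| < ε := by
    rintro s ⟨h1, h2⟩
    rw [abs_lt]
    constructor <;> linarith
  have hkey : ∀ s ∈ Icc (a : ℝ) b, ∀ t ∈ Icc (a : ℝ) b,
      |s - t| ≤ ((m : ℝ) + 1) * |pval c s - pval c t| := by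
    intro s hs t ht
    have h1 : (s, t) ∈ ball (x, x) ε := by
      rw [mem_ball, Prod.dist_eq, max_lt_iff]
      exact ⟨hin s hs, hin t ht⟩
    have h2 := hball _ h1
    dsimp only at h2
    have h3 : (2 / |D|) * (|s - t| * (|D| / 2)) = |s - t| := by field_simp
    rw [← h3]
    have h4 : 0 ≤ |pval c s - pval c t| := abs_nonneg _
    calc (2 / |D|) * (|s - t| * (|D| / 2)) ≤ (m + 1) * (|s - t| * (|D| / 2)) := by
          have : 0 ≤ |s - t| * (|D| / 2) := by positivity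
          gcongr
          linarith
      _ ≤ (m + 1) * |pval c s - pval c t| := by gcongr
  have hxab : x ∈ Icc (a : ℝ) b := ⟨ha2.le, hb1.le⟩
  have hz : c ∈ hasZero d a b := ⟨x, hxab, hpx⟩
  have hmem : (pRoot (d, a, b, m)).f c ∈ Y := by
    refine h (pRoot (d, a, b, m)) (by simp [fieldPieces]) c ⟨hz, hkey⟩ ?_
    intro j
    exact (P.coeff j).2
  obtain ⟨h1, h2⟩ := theZero_spec hz
  have h3 := hkey _ h1 _ hxab
  rw [h2, hpx, sub_zero, abs_zero, mul_zero] at h3
  have h4 : theZero d a b c = x := by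
    have := abs_nonpos_iff.1 h3
    linarith
  change x ∈ Y
  have h5 : (pRoot (d, a, b, m)).f c = theZero d a b c := rfl
  rw [← h4, ← h5]
  exact hmem

/-- pieces of a locally Hölder function -/
lemma pieces_of {k : ℕ} {U : Set (Fin k → ℝ)} {f : (Fin k → ℝ) → ℝ}
    (hf : ∀ x ∈ U, ∃ M r : ℝ≥0, 0 < r ∧ ∃ V ∈ 𝓝 x, HolderOnWith M r f V) :
    ∃ PP : Set Piece, PP.Countable ∧ ∀ Y : Set ℝ, (∀ P ∈ PP, ∀ x ∈ P.C, (∀ j, x j ∈ Y) → P.f x ∈ Y) →
      ∀ x ∈ U, (∀ j, x j ∈ Y) → f x ∈ Y := by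
  classical
  have h1 : ∀ x ∈ U, ∃ s : ℝ, 0 < s ∧ ∃ M r : ℝ≥0, 0 < r ∧ HolderOnWith M r f (closedBall x s) := by
    intro x hx
    obtain ⟨M, r, hr, V, hV, hM⟩ := hf x hx
    obtain ⟨s, hs, hsub⟩ := Metric.nhds_basis_closedBall.mem_iff.1 hV
    exact ⟨s, hs, M, r, hr, hM.mono hsub⟩
  choose! s hs M r hr hM using h1
  obtain ⟨t, htU, ht, hcov⟩ := TopologicalSpace.countable_cover_nhdsWithin
    (s := U) (f := fun x => closedBall x (s x)) fun x hx =>
      mem_nhdsWithin_of_mem_nhds (closedBall_mem_nhds x (hs x hx))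
  have : Countable t := ht.to_subtype
  refine ⟨range fun x : t => ⟨k, closedBall x.1 (s x.1), f, isClosed_closedBall,
    ⟨M x.1, r x.1, hr x.1 (htU x.2), hM x.1 (htU x.2)⟩⟩, countable_range _, ?_⟩
  intro Y hY x hx hxY
  obtain ⟨y, hy, hxy⟩ := mem_iUnion₂.1 (hcov hx)
  exact hY _ ⟨⟨y, hy⟩, rfl⟩ x hxy hxY

/-- the small field generated by countably many compact thin sets -/
theorem gen {ι : Type*} [Countable ι] {k : ι → ℕ} {U : ∀ i, Set (Fin (k i) → ℝ)}
    {f : ∀ i, (Fin (k i) → ℝ) → ℝ}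
    (hf : ∀ i, ∀ x ∈ U i, ∃ M r : ℝ≥0, 0 < r ∧ ∃ V ∈ 𝓝 x, HolderOnWith M r (f i) V)
    {X : Set ℝ} (hX : Sig S X) :
    ∃ F : Subfield ℝ, X ⊆ F ∧ IsSigmaCompact (F : Set ℝ) ∧ dimH (F : Set ℝ) = 0 ∧
      (∀ x : ℝ, IsAlgebraic F x → x ∈ F) ∧ ∀ i, ∀ x ∈ U i, (∀ j, x j ∈ F) → f i x ∈ F := by
  choose PP h1 h2 using fun i => pieces_of (hf i)
  obtain ⟨Y, h3, h4, h5⟩ := clo_exists (PP := fieldPieces ∪ ⋃ i, PP i)
    (fieldPieces_countable.union (countable_iUnion h1)) hX
  obtain ⟨F, rfl, hF⟩ := field_of_closed (Y := Y) fun P hP => h5 P (Or.inl hP)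
  refine ⟨F, h3, h4.isSigmaCompact, h4.dim_eq, hF, ?_⟩
  intro i
  exact h2 i F fun P hP => h5 P (Or.inr (mem_iUnion.2 ⟨i, hP⟩))

end Pool.Agent.TH463.FF
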