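import Pool.Agent.TH463.FF.Sing
import Pool.Agent.TH463.FF.Gen

/-!
Common scales for countably many measures, and the small field which carries their singular parts.
-/

set_option autoImplicit false

open MeasureTheory Filter Topology Set
open scoped ENNReal

namespace Pool.Agent.TH463.FF

open Pool.Agent.W764.FB

/-- common scales -/
theorem exists_scale {μ : ℕ → Measure T} {E : ℕ → Set T}
    (h : ∀ i, ∀ (A : ℕ) (κ c : ℝ), 0 < κ → 0 < c → ∃ ρ0 : ℝ, 0 < ρ0 ∧ ∀ ρ : ℝ, 0 < ρ → ρ ≤ ρ0 →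
        ∃ (C : Finset T) (K : ℕ), 2 ≤ K ∧ C.card ≤ K ∧ ρ * (K : ℝ) ^ A ≤ c ∧
          μ i (E i \ ⋃ x ∈ C, Metric.closedBall x ρ) ≤ ENNReal.ofReal κ) :
    ∃ (S : Scale) (C : ℕ → ℕ → Finset T), ∀ i j, i ≤ j → (C i j).card ≤ S.K j ∧
      μ i (E i \ ⋃ x ∈ C i j, Metric.closedBall x (S.ρ j)) ≤ ENNReal.ofReal ((1 / 2) ^ j) := by
  classical
  choose ρ0 hρ0 H using fun i j : ℕ => h i j ((1 / 2 : ℝ) ^ j) (1 / ((j : ℝ) + 1)) (by positivity)
    (by positivity)
  set ρ : ℕ → ℝ := fun j => (Finset.range (j + 1)).inf' ⟨0, by simp⟩ (fun i => ρ0 i j) with hρ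
  have hρpos : ∀ j, 0 < ρ j := by
    intro j
    exact (Finset.lt_inf'_iff _).2 fun i _ => hρ0 i j
  have hρle : ∀ i j, i ≤ j → ρ j ≤ ρ0 i j := by
    intro i j hij
    exact Finset.inf'_le _ (Finset.mem_range.2 (by omega))
  have H' : ∀ i j, ∃ (C : Finset T) (K : ℕ), i ≤ j → 2 ≤ K ∧ C.card ≤ K ∧
      ρ j * (K : ℝ) ^ j ≤ 1 / ((j : ℝ) + 1) ∧
          μ i (E i \ ⋃ x ∈ C, Metric.closedBall x (ρ j)) ≤ ENNReal.ofReal ((1 / 2) ^ j) := by
    intro i j
    by_cases hij : i ≤ j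
    · obtain ⟨C, K, h1⟩ := H i j (ρ j) (hρpos j) (hρle i j hij)
      exact ⟨C, K, fun _ => h1⟩
    · exact ⟨∅, 0, fun h => absurd h hij⟩
  choose C K HC using H'
  set KK : ℕ → ℕ := fun j => (Finset.range (j + 1)).sup (fun i => K i j) with hKK
  have hKle : ∀ i j, i ≤ j → K i j ≤ KK j := by
    intro i j hij
    exact Finset.le_sup (f := fun i => K i j) (Finset.mem_range.2 (by omega))
  have hKat : ∀ j, ∃ i ≤ j, KK j = K i j := by
    intro j
    obtain ⟨i, hi, h1⟩ := Finset.exists_mem_eq_sup (Finset.range (j + 1)) ⟨0, by simp⟩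
      (fun i => K i j)
    exact ⟨i, by simpa [Nat.lt_succ_iff] using hi, h1⟩
  have hK2 : ∀ j, 2 ≤ KK j := by
    intro j
    obtain ⟨i, hi, h1⟩ := hKat j
    rw [h1]
    exact (HC i j hi).1
  have hbound : ∀ A j, A ≤ j → ρ j * (KK j : ℝ) ^ A ≤ 1 / ((j : ℝ) + 1) := by
    intro A j hAj
    obtain ⟨i, hi, h1⟩ := hKat j
    refine le_trans ?_ (HC i j hi).2.2.1
    rw [← h1]
    have h2 : (1 : ℝ) ≤ KK j := by exact_mod_cast (show 1 ≤ 2 by norm_num).trans (hK2 j)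
    have := hρpos j
    gcongr
  refine ⟨⟨ρ, KK, hρpos, hK2, ?_⟩, C, ?_⟩
  · intro A
    refine squeeze_zero' (Eventually.of_forall fun j => ?_) ?_ tendsto_one_div_add_atTop_nhds_zero_nat
    · have := hρpos j
      positivity
    · exact (eventually_ge_atTop A).mono fun j hj => hbound A j hj
  · intro i j hij
    exact ⟨(HC i j hij).2.1.trans (hKle i j hij), (HC i j hij).2.2.2⟩

/-- lifting a thin subset of the circle to the unit interval -/
lemma Thin.lift {S : Scale} {E : Set T} (h : Thin S E) :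
    Thin S {x : ℝ | x ∈ Icc (0 : ℝ) 1 ∧ (x : T) ∈ E} := by
  classical
  obtain ⟨m, L, α, hL, hα, h⟩ := h
  refine ⟨m + 2, L, α, hL, hα, h.mono ?_⟩
  rintro j ⟨C, hC, hE⟩
  have hrep : ∀ c : T, ∃ y : ℝ, y ∈ Ico (0 : ℝ) 1 ∧ (y : T) = c := by
    intro c
    refine ⟨AddCircle.equivIco 1 0 c, ?_, ?_⟩
    · have := (AddCircle.equivIco 1 0 c).2
      simpa using this
    · exact AddCircle.coe_equivIco
  choose rep hrep1 hrep2 using hrep
  refine ⟨(C ×ˢ ({-1, 0, 1} : Finset ℤ)).image fun z => rep z.1 + z.2, ?_, ?_⟩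
  · refine Finset.card_image_le.trans ?_
    rw [Finset.card_product]
    have h3 : ({-1, 0, 1} : Finset ℤ).card = 3 := rfl
    rw [h3, pow_add]
    have h2 := S.two_le j
    have h4 : 3 ≤ S.K j ^ 2 := by nlinarith
    exact Nat.mul_le_mul hC h4
  · rintro x ⟨⟨hx0, hx1⟩, hx⟩
    obtain ⟨c, hc, hxc⟩ := mem_iUnion₂.1 (hE hx)
    have h1 := hrep1 c
    rw [Metric.mem_closedBall, ← hrep2 c, dist_eq_norm, ← AddCircle.coe_sub, UnitAddCircle.norm_eq] at hxc
    set n := round (x - rep c) with hn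
    have hn1 : -1 ≤ n := by
      rw [hn, round_eq, Int.le_floor]
      push_cast
      linarith [h1.2]
    have hn2 : n ≤ 1 := by
      rw [hn, round_eq]
      have : ⌊x - rep c + 1 / 2⌋ < 2 := by
        rw [Int.floor_lt]
        push_cast
        linarith [h1.1]
      omega
    refine mem_iUnion₂.2 ⟨rep c + n, ?_, ?_⟩
    · refine Finset.mem_image.2 ⟨(c, n), Finset.mem_product.2 ⟨hc, ?_⟩, rfl⟩
      simp only [Finset.mem_insert, Finset.mem_singleton]
      omega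
    · rw [Metric.mem_closedBall, Real.dist_eq]
      refine le_trans (le_of_eq ?_) hxc
      congr 1
      ring

/-- the image of a set of real numbers in the circle -/
def circ (F : Set ℝ) : Set T := (fun x : ℝ => (x : T)) '' F

/-- **The small field.** -/
theorem small {ι : Type*} [Countable ι] {k : ι → ℕ} {W : ∀ i, Set (Fin (k i) → ℝ)}
    {f : ∀ i, (Fin (k i) → ℝ) → ℝ}
    (hf : ∀ i, ∀ x ∈ W i, ∃ M r : NNReal, 0 < r ∧ ∃ V ∈ 𝓝 x, HolderOnWith M r (f i) V)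
    {p q : ℕ → ℕ} (hpq : ∀ i, CoprimePair (p i) (q i)) (μ : ℕ → Measure T)
    [∀ i, IsProbabilityMeasure (μ i)]
    (hip : ∀ i, MeasurePreserving (fun x : T => p i • x) (μ i) (μ i))
    (hiq : ∀ i, MeasurePreserving (fun x : T => q i • x) (μ i) (μ i)) :
    ∃ F : Subfield ℝ, (IsSigmaCompact (F : Set ℝ) ∧ dimH (F : Set ℝ) = 0 ∧
      (∀ x : ℝ, IsAlgebraic F x → x ∈ F) ∧ ∀ i, ∀ x ∈ W i, (∀ j, x j ∈ F) → f i x ∈ F) ∧
      ∃ D : ℕ → Set T, (∀ i, MeasurableSet (D i)) ∧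
        (∀ i, (μ i).restrict (D i) = μ i (D i) • (volume : Measure T)) ∧
        ∀ i, μ i ((D i)ᶜ \ circ F) = 0 := by
  classical
  choose D hDm hD H using fun i => cov (hpq i) (μ i) (hip i) (hiq i)
  obtain ⟨S, C, hC⟩ := exists_scale (μ := μ) (E := fun i => (D i)ᶜ) H
  -- the compact thin sets
  set E : ℕ → ℕ → Set T := fun i j0 => ⋂ j ∈ Ici (max i j0), ⋃ x ∈ C i j, Metric.closedBall x (S.ρ j)
    with hE
  have hEc : ∀ i j0, IsClosed (E i j0) := by
    intro i j0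
    refine isClosed_biInter fun j _ => ?_
    exact (C i j).finite_toSet.isClosed_biUnion fun x _ => Metric.isClosed_closedBall
  have hEt : ∀ i j0, Thin S (E i j0) := by
    intro i j0
    refine ⟨1, 1, 1, one_pos, one_pos, (eventually_ge_atTop (max i j0)).mono fun j hj =>
      ⟨C i j, ?_, ?_⟩⟩
    · rw [pow_one]
      exact (hC i j ((le_max_left _ _).trans hj)).1
    · rw [one_mul, Real.rpow_one]
      exact biInter_subset_of_mem (mem_Ici.2 hj)
  have hEμ : ∀ i, μ i ((D i)ᶜ \ ⋃ j0, E i j0) = 0 := by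
    intro i
    have hs : Tendsto (fun j0 : ℕ => ∑' j : ℕ, ENNReal.ofReal ((1 / 2 : ℝ) ^ (j + j0))) atTop (𝓝 0) := by
      refine ENNReal.tendsto_sum_nat_add (fun j => ENNReal.ofReal ((1 / 2 : ℝ) ^ j)) ?_
      rw [← ENNReal.ofReal_tsum_of_nonneg (fun n => by positivity)
        (summable_geometric_of_lt_one (by norm_num) (by norm_num))]
      exact ENNReal.ofReal_ne_top
    refine le_antisymm (ge_of_tendsto hs ?_) zero_le
    refine (eventually_ge_atTop i).mono fun j0 hj0 => ?_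
    have hsub : (D i)ᶜ \ ⋃ j0, E i j0 ⊆
        ⋃ j : ℕ, ((D i)ᶜ \ ⋃ x ∈ C i (j + j0), Metric.closedBall x (S.ρ (j + j0))) := by
      rintro x ⟨hx1, hx2⟩
      have hx3 : x ∉ E i j0 := fun h => hx2 (mem_iUnion.2 ⟨j0, h⟩)
      simp only [hE, mem_iInter, not_forall] at hx3
      obtain ⟨j, hj, hxj⟩ := hx3
      rw [mem_Ici, max_eq_right hj0] at hj
      refine mem_iUnion.2 ⟨j - j0, hx1, ?_⟩
      rw [Nat.sub_add_cancel hj]
      exact hxj
    refine (measure_mono hsub).trans ((measure_iUnion_le _).trans ?_)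
    exact ENNReal.tsum_le_tsum fun j => (hC i (j + j0) (by omega)).2
  -- the field
  have hXs : Sig S (⋃ z : ℕ × ℕ, {x : ℝ | x ∈ Icc (0 : ℝ) 1 ∧ (x : T) ∈ E z.1 z.2}) := by
    refine Sig.iUnion fun z => Sig.of_thin ?_ ?_
    · exact isCompact_Icc.inter_right ((hEc z.1 z.2).preimage (AddCircle.continuous_mk' 1))
    · exact (hEt z.1 z.2).lift
  obtain ⟨F, hXF, h1, h2, h3, h4⟩ := gen hf hXs
  refine ⟨F, ⟨h1, h2, h3, h4⟩, D, hDm, hD, ?_⟩
  intro i
  refine measure_mono_null ?_ (hEμ i)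
  refine sdiff_subset_sdiff_right ?_
  refine iUnion_subset fun j0 => ?_
  intro x hx
  obtain ⟨y, hy, rfl⟩ : ∃ y : ℝ, y ∈ Icc (0 : ℝ) 1 ∧ (y : T) = x := by
    refine ⟨AddCircle.equivIco 1 0 x, ?_, AddCircle.coe_equivIco⟩
    have := (AddCircle.equivIco 1 0 x).2
    simp only [zero_add] at this
    exact ⟨this.1, this.2.le⟩
  exact ⟨y, hXF (mem_iUnion.2 ⟨(i, j0), hy, hx⟩), rfl⟩

end Pool.Agent.TH463.FF
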