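import Pool.Agent.TH463.FF.Cov
import Pool.Agent.W764.SH.Main

/-!
The part of an invariant measure which is singular to Lebesgue measure, and its coverings.
-/

set_option autoImplicit false

open MeasureTheory Filter Topology Set
open scoped ENNReal

namespace Pool.Agent.TH463.FF

open Pool.Agent.H706R2.Ren (U labels)
open Pool.Agent.W764.FB
open Pool.Agent.W764.SH

/-- quotients of invariances -/
lemma mp_quot {μ : Measure T} [IsFiniteMeasure μ] {P n m : ℕ} (hPnm : P * n = m)
    (hn : MeasurePreserving (fun x : T => n • x) μ μ)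
    (hm : MeasurePreserving (fun x : T => m • x) μ μ) :
    MeasurePreserving (fun x : T => P • x) μ μ := by
  have hmeas : ∀ n : ℕ, Measurable (fun x : T => n • x) := fun n => (continuous_nsmul n).measurable
  have hmap : ∀ (n : ℕ) (k : ℤ), ∫ x, fourier k x ∂(μ.map (fun x : T => n • x)) =
      ∫ x, fourier (k * n) x ∂μ := by
    intro n k
    rw [integral_map (hmeas n).aemeasurable]
    · refine integral_congr_ae (Eventually.of_forall fun x => ?_)
      exact fourier_smul k n x
    · exact (fourier k).continuous.aestronglyMeasurable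
  refine ⟨hmeas P, ?_⟩
  have : IsFiniteMeasure (μ.map (fun x : T => P • x)) := Measure.isFiniteMeasure_map _ _
  refine ext_fourier fun k => ?_
  rw [hmap]
  have h1 := hmap n (k * P)
  rw [hn.map_eq] at h1
  have h2 := hmap m k
  rw [hm.map_eq] at h2
  rw [h1, h2, ← hPnm]
  congr 2
  push_cast
  ring_nf

/-- the group generated by `p` and `q` contains two coprime integers -/
def CoprimePair (p q : ℕ) : Prop :=
  ∃ P Q : ℕ, 2 ≤ P ∧ 2 ≤ Q ∧ Nat.Coprime P Q ∧
    (∃ a b c d : ℕ, P * (p ^ a * q ^ b) = p ^ c * q ^ d) ∧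
    ∃ a b c d : ℕ, Q * (p ^ a * q ^ b) = p ^ c * q ^ d

/-- the part of the measure singular to Lebesgue measure has economical covers at all small scales -/
theorem cov {p q : ℕ} (h : CoprimePair p q) (μ : Measure T) [IsProbabilityMeasure μ]
    (hip : MeasurePreserving (fun x : T => p • x) μ μ)
    (hiq : MeasurePreserving (fun x : T => q • x) μ μ) :
    ∃ D : Set T, MeasurableSet D ∧ μ.restrict D = μ D • (volume : Measure T) ∧
      ∀ (A : ℕ) (κ c : ℝ), 0 < κ → 0 < c → ∃ ρ0 : ℝ, 0 < ρ0 ∧ ∀ ρ : ℝ, 0 < ρ → ρ ≤ ρ0 →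
        ∃ (C : Finset T) (K : ℕ), 2 ≤ K ∧ C.card ≤ K ∧ ρ * (K : ℝ) ^ A ≤ c ∧
          μ (Dᶜ \ ⋃ x ∈ C, Metric.closedBall x ρ) ≤ ENNReal.ofReal κ := by
  classical
  obtain ⟨P, Q, hP, hQ, hPQ, ⟨a, b, c, d, e1⟩, ⟨a', b', c', d', e2⟩⟩ := h
  have hmp : ∀ i j, MeasurePreserving (fun x : T => (p ^ i * q ^ j) • x) μ μ := by
    intro i j
    have h1 := Pool.Agent.H847R3.XpXq.mp_pow hip i
    have h2 := Pool.Agent.H847R3.XpXq.mp_pow hiq j
    have h3 := h1.comp h2
    convert! h3 using 1
    funext x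
    simp [mul_smul]
  have hiP := mp_quot e1 (hmp a b) (hmp c d)
  have hiQ := mp_quot e2 (hmp a' b') (hmp c' d')
  obtain ⟨D, hDm, hDp, hDq, hD, B, hBm, hB0, hB⟩ := decomp hP hQ hPQ μ hiP hiQ
  refine ⟨D, hDm, hD, ?_⟩
  intro A κ c hκ hc
  rcases eq_or_ne (μ Dᶜ) 0 with h0 | h0
  · refine ⟨c / 2 ^ A, by positivity, fun ρ hρ hρ0 => ⟨∅, 2, le_rfl, by simp, ?_, ?_⟩⟩
    · rw [le_div_iff₀ (by positivity)] at hρ0
      exact_mod_cast hρ0
    · refine (measure_mono sdiff_subset).trans ?_
      rw [h0]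
      exact zero_le
  · set ν : Measure T := (μ Dᶜ)⁻¹ • μ.restrict Dᶜ with hν
    have hν1 : IsProbabilityMeasure ν := by
      refine ⟨?_⟩
      rw [hν, Measure.smul_apply, Measure.restrict_apply_univ, smul_eq_mul,
        ENNReal.inv_mul_cancel h0 (measure_ne_top _ _)]
    have hνP : MeasurePreserving (fun x : T => P • x) ν ν := by
      have h3 := restrict_mp hiP hDm.compl (hDp.mono fun x hx => not_congr hx)
      refine ⟨h3.measurable, ?_⟩
      rw [hν, Measure.map_smul, h3.map_eq]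
    have hinj : EssInj P ν := by
      refine ⟨B, hBm, ?_, hB⟩
      rw [hν, Measure.smul_apply, smul_eq_mul, Measure.restrict_apply hBm.compl]
      have : Bᶜ ∩ Dᶜ = Dᶜ \ B := by
        ext x; simp only [mem_inter_iff, mem_compl_iff, Set.mem_sdiff]; tauto
      rw [this, hB0, mul_zero]
    obtain ⟨ρ0, hρ0, H⟩ := coverA hP ν hνP hinj A hκ hc
    refine ⟨min ρ0 (c / 2 ^ A), by positivity, fun ρ hρ hρ1 => ?_⟩
    obtain ⟨K, cen, hK, hKc, hKν⟩ := H ρ hρ (hρ1.trans (min_le_left _ _))
    have hρ2 := hρ1.trans (min_le_right _ _)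
    rw [le_div_iff₀ (by positivity)] at hρ2
    refine ⟨Finset.univ.image cen, max 2 K, le_max_left _ _, ?_, ?_, ?_⟩
    · refine Finset.card_image_le.trans ?_
      rw [Finset.card_univ, Fintype.card_fin]
      exact le_max_right _ _
    · rcases le_total 2 K with h2 | h2
      · rw [max_eq_right h2]
        exact hKc
      · rw [max_eq_left h2]
        exact_mod_cast hρ2
    · have hU : (⋃ x ∈ Finset.univ.image cen, Metric.closedBall x ρ) = U cen ρ := by
        ext y
        simp [U]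
      rw [hU]
      have hUm : MeasurableSet (U cen ρ) := Pool.Agent.H706R2.Ren.measurableSet_U cen ρ
      have h4 : μ (Dᶜ \ U cen ρ) = μ Dᶜ * ν (U cen ρ)ᶜ := by
        rw [hν, Measure.smul_apply, smul_eq_mul, Measure.restrict_apply hUm.compl, ← mul_assoc,
          ENNReal.mul_inv_cancel h0 (measure_ne_top _ _), one_mul]
        congr 1
        ext x
        simp only [Set.mem_sdiff, mem_inter_iff, mem_compl_iff]
        tauto
      rw [h4]
      have h5 : ν (U cen ρ)ᶜ ≤ ENNReal.ofReal κ := by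
        rw [← ENNReal.ofReal_toReal (measure_ne_top ν (U cen ρ)ᶜ)]
        exact ENNReal.ofReal_le_ofReal hKν
      calc μ Dᶜ * ν (U cen ρ)ᶜ ≤ 1 * ENNReal.ofReal κ := by
            gcongr
            exact prob_le_one
        _ = ENNReal.ofReal κ := one_mul _

end Pool.Agent.TH463.FF
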