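import Pool.Agent.TH463.FF.Circle

/-!
The parts of the `×p`, `×q`-invariant measures on the circle which are singular to Lebesgue measure are
carried by a subfield of the real numbers of Hausdorff dimension zero.
-/

set_option autoImplicit false

open MeasureTheory Set Topology

namespace Pool.Agent.TH463.FF.SmallSubfields

/-- the multiplicative group generated by the positive integers `p` and `q` contains two coprime
integers `P, Q ≥ 2` (this holds for coprime `p, q ≥ 2`, and also for pairs like `6, 12`) -/
def GeneratesCoprime (p q : ℕ) : Prop :=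
  0 < p ∧ 0 < q ∧ ∃ P Q : ℕ, 2 ≤ P ∧ 2 ≤ Q ∧ Nat.Coprime P Q ∧
    (∃ a b c d : ℕ, P * (p ^ a * q ^ b) = p ^ c * q ^ d) ∧
    ∃ a b c d : ℕ, Q * (p ^ a * q ^ b) = p ^ c * q ^ d

/-- every measurable set which is invariant under both maps has measure zero or one -/
def JointlyErgodic (p q : ℕ) (μ : Measure UnitAddCircle) : Prop :=
  ∀ A : Set UnitAddCircle, MeasurableSet A → (fun x => p • x) ⁻¹' A = A →
    (fun x => q • x) ⁻¹' A = A → μ A = 0 ∨ μ A = 1

/-- the image in the circle `ℝ / ℤ` of a field of real numbers -/
def circle (F : Subfield ℝ) : Set UnitAddCircle := (fun x : ℝ => (x : UnitAddCircle)) '' (F : Set ℝ)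

/-- **One small field carries all singular parts.** Let countably many functions `f i` of several real
variables be given, where `f i` is Hölder continuous on a neighbourhood of every point of a set `W i`,
and countably many probability measures `μ n` on the circle, where `μ n` is invariant under
multiplication by `p n` and by `q n`, and the group generated by `p n` and `q n` contains two coprime
integers. Then there is one subfield `F` of the real numbers which is a countable union of compact sets,
has Hausdorff dimension zero, is algebraically closed in the real numbers and closed under all the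
functions `f i`, such that for every `n` the restriction of `μ n` to the complement of `F` modulo one is
a multiple of Lebesgue measure, `μ n` is Lebesgue measure if and only if `F` modulo one has measure
zero, and `μ n` is Lebesgue measure or is carried by `F` modulo one when it is jointly ergodic. -/
theorem result {ι : Type} [Countable ι] (k : ι → ℕ) (W : ∀ i, Set (Fin (k i) → ℝ))
    (f : ∀ i, (Fin (k i) → ℝ) → ℝ)
    (hf : ∀ i, ∀ x ∈ W i, ∃ M r : NNReal, 0 < r ∧ ∃ V ∈ 𝓝 x, HolderOnWith M r (f i) V) (p q : ℕ → ℕ)
    (hpq : ∀ n, GeneratesCoprime (p n) (q n)) (μ : ℕ → Measure UnitAddCircle)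
    (hμ : ∀ n, IsProbabilityMeasure (μ n))
    (hip : ∀ n, MeasurePreserving (fun x : UnitAddCircle => p n • x) (μ n) (μ n))
    (hiq : ∀ n, MeasurePreserving (fun x : UnitAddCircle => q n • x) (μ n) (μ n)) :
    ∃ F : Subfield ℝ, IsSigmaCompact (F : Set ℝ) ∧ dimH (F : Set ℝ) = 0 ∧
      (∀ x : ℝ, IsAlgebraic F x → x ∈ F) ∧
      (∀ i, ∀ x ∈ W i, (∀ j, x j ∈ F) → f i x ∈ F) ∧
      ∀ n, (μ n).restrict (circle F)ᶜ = μ n (circle F)ᶜ • volume ∧
        (μ n = volume ↔ μ n (circle F) = 0) ∧
        (JointlyErgodic (p n) (q n) (μ n) → μ n = volume ∨ μ n (circle F) = 1) := by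
  have hcp : ∀ n, TH463.FF.CoprimePair (p n) (q n) := fun n => (hpq n).2.2
  obtain ⟨F, ⟨h1, h2, h3, h4⟩, D, -, hD, hDF⟩ := TH463.FF.small hf hcp μ hip hiq
  refine ⟨F, h1, h2, h3, h4, fun n => ?_⟩
  obtain ⟨h5, h6⟩ := TH463.FF.along h1 h2 (hD n) (hDF n)
  refine ⟨h5, h6, fun herg => ?_⟩
  rcases herg (circle F) (TH463.FF.meas_circ h1)
    (by ext x; exact TH463.FF.smul_circ (hpq n).1 x)
    (by ext x; exact TH463.FF.smul_circ (hpq n).2.1 x) with h7 | h7
  · exact Or.inl (h6.2 h7)
  · exact Or.inr h7

end Pool.Agent.TH463.FF.SmallSubfields
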