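import Mathlib

/-!
Thin sets: sets with few covering balls along a prescribed sequence of scales.
-/

set_option autoImplicit false

open MeasureTheory Filter Topology Set Metric
open scoped ENNReal NNReal

namespace Pool.Agent.TH463.FF

/-- a sequence of scales `ρ j` and numbers `K j` of subexponential growth in `log (1 / ρ j)` -/
structure Scale where
  ρ : ℕ → ℝ
  K : ℕ → ℕ
  ρ_pos : ∀ j, 0 < ρ j
  two_le : ∀ j, 2 ≤ K j
  lim : ∀ A : ℕ, Tendsto (fun j => ρ j * (K j : ℝ) ^ A) atTop (𝓝 0)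

lemma Scale.rho_tendsto (S : Scale) : Tendsto S.ρ atTop (𝓝 0) := by
  have h := S.lim 0
  simpa using h

lemma Scale.lim' (S : Scale) (A : ℕ) {α : ℝ} (hα : 0 < α) :
    Tendsto (fun j => S.ρ j ^ α * (S.K j : ℝ) ^ A) atTop (𝓝 0) := by
  obtain ⟨B, hB⟩ := exists_nat_ge ((A : ℝ) / α)
  have h1 : Tendsto (fun j => (S.ρ j * (S.K j : ℝ) ^ B) ^ α) atTop (𝓝 ((0 : ℝ) ^ α)) :=
    (S.lim B).rpow_const (Or.inr hα.le)
  rw [Real.zero_rpow hα.ne'] at h1
  refine squeeze_zero (fun j => ?_) (fun j => ?_) h1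
  · have := S.ρ_pos j
    positivity
  · have h2 := S.ρ_pos j
    have h3 : (1 : ℝ) ≤ S.K j := by exact_mod_cast (show 1 ≤ 2 by norm_num).trans (S.two_le j)
    rw [Real.mul_rpow h2.le (by positivity)]
    gcongr
    rw [← Real.rpow_natCast (S.K j : ℝ) B, ← Real.rpow_mul (by positivity),
      ← Real.rpow_natCast (S.K j : ℝ) A]
    refine Real.rpow_le_rpow_of_exponent_le h3 ?_
    rw [div_le_iff₀ hα] at hB
    exact hB

/-- `E` is covered by at most `K j ^ m` balls of radius `L * ρ j ^ α` for all large `j` -/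
def Thin (S : Scale) {X : Type*} [PseudoMetricSpace X] (E : Set X) : Prop :=
  ∃ (m : ℕ) (L α : ℝ), 0 < L ∧ 0 < α ∧ ∀ᶠ j in atTop, ∃ C : Finset X, C.card ≤ S.K j ^ m ∧
    E ⊆ ⋃ c ∈ C, closedBall c (L * S.ρ j ^ α)

variable {S : Scale} {X Y : Type*} [PseudoMetricSpace X] [PseudoMetricSpace Y]

lemma Thin.mono {E E' : Set X} (h : Thin S E) (hE : E' ⊆ E) : Thin S E' := by
  obtain ⟨m, L, α, hL, hα, h⟩ := h
  exact ⟨m, L, α, hL, hα, h.mono fun j ⟨C, h1, h2⟩ => ⟨C, h1, hE.trans h2⟩⟩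

/-- the centres can be chosen in the set -/
lemma recenter {E : Set X} {C : Finset X} {r : ℝ} (h : E ⊆ ⋃ c ∈ C, closedBall c r) :
    ∃ C' : Finset X, C'.card ≤ C.card ∧ (∀ c ∈ C', c ∈ E) ∧ E ⊆ ⋃ c ∈ C', closedBall c (2 * r) := by
  classical
  set D := C.filter fun c => (E ∩ closedBall c r).Nonempty with hD
  have hne : ∀ c ∈ D, (E ∩ closedBall c r).Nonempty := fun c hc => (Finset.mem_filter.1 hc).2
  choose! g hg using hne
  refine ⟨D.image g, Finset.card_image_le.trans (Finset.card_filter_le _ _), ?_, ?_⟩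
  · intro c hc
    obtain ⟨d, hd, rfl⟩ := Finset.mem_image.1 hc
    exact (hg d hd).1
  · intro x hx
    obtain ⟨c, hc, hxc⟩ := mem_iUnion₂.1 (h hx)
    have hcD : c ∈ D := Finset.mem_filter.2 ⟨hc, ⟨x, hx, hxc⟩⟩
    refine mem_iUnion₂.2 ⟨g c, Finset.mem_image_of_mem g hcD, ?_⟩
    have h1 := (hg c hcD).2
    rw [mem_closedBall] at h1 hxc ⊢
    have h2 := dist_triangle x c (g c)
    rw [dist_comm c (g c)] at h2
    linarith

lemma Thin.image {E : Set X} (h : Thin S E) {f : X → Y} {M r : ℝ≥0} (hr : 0 < r)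
    (hf : HolderOnWith M r f E) : Thin S (f '' E) := by
  classical
  obtain ⟨m, L, α, hL, hα, h⟩ := h
  refine ⟨m, (M + 1) * (2 * L) ^ (r : ℝ), α * r, by positivity, by positivity, h.mono ?_⟩
  rintro j ⟨C, hC, hE⟩
  obtain ⟨C', hC', hCE, hE'⟩ := recenter hE
  refine ⟨C'.image f, Finset.card_image_le.trans (hC'.trans hC), ?_⟩
  rintro _ ⟨x, hx, rfl⟩
  obtain ⟨c, hc, hxc⟩ := mem_iUnion₂.1 (hE' hx)
  refine mem_iUnion₂.2 ⟨f c, Finset.mem_image_of_mem f hc, ?_⟩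
  rw [mem_closedBall] at hxc ⊢
  have h1 := hf.dist_le hx (hCE c hc)
  have h2 : (0 : ℝ) ≤ M := M.2
  have h3 := S.ρ_pos j
  have h4 : (0 : ℝ) ≤ r := r.2
  calc dist (f x) (f c) ≤ M * dist x c ^ (r : ℝ) := h1
    _ ≤ M * (2 * (L * S.ρ j ^ α)) ^ (r : ℝ) := by gcongr
    _ ≤ (M + 1) * (2 * (L * S.ρ j ^ α)) ^ (r : ℝ) := by
        gcongr
        linarith
    _ = (M + 1) * (2 * L) ^ (r : ℝ) * S.ρ j ^ (α * r) := by
        rw [← mul_assoc 2 L, Real.mul_rpow (by positivity) (by positivity),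
          ← Real.rpow_mul h3.le, mul_assoc]

lemma Thin.pi {k : ℕ} {E : Fin k → Set ℝ} (h : ∀ i, Thin S (E i)) :
    Thin S {x : Fin k → ℝ | ∀ i, x i ∈ E i} := by
  classical
  choose m L α hL hα h using h
  obtain ⟨β, hβ0, hβ⟩ : ∃ β : ℝ, 0 < β ∧ ∀ i, β ≤ α i := by
    rcases isEmpty_or_nonempty (Fin k) with h0 | h0
    · exact ⟨1, one_pos, fun i => (h0.false i).elim⟩
    · refine ⟨Finset.univ.inf' Finset.univ_nonempty α, ?_, fun i =>
        Finset.inf'_le _ (Finset.mem_univ i)⟩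
      exact (Finset.lt_inf'_iff _).2 fun i _ => hα i
  have hρ1 : ∀ᶠ j in atTop, S.ρ j ≤ 1 := by
    have h1 : ∀ᶠ j in atTop, S.ρ j < 1 := S.rho_tendsto.eventually (gt_mem_nhds one_pos)
    exact h1.mono fun j hj => hj.le
  refine ⟨∑ i, m i, 1 + ∑ i, L i, β, ?_, hβ0, ((eventually_all.2 h).and hρ1).mono ?_⟩
  · have : 0 ≤ ∑ i, L i := Finset.sum_nonneg fun i _ => (hL i).le
    linarith
  · rintro j ⟨hj, hj1⟩
    choose C hC hE using hj
    refine ⟨Fintype.piFinset C, ?_, ?_⟩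
    · rw [Fintype.card_piFinset, ← Finset.prod_pow_eq_pow_sum]
      exact Finset.prod_le_prod (fun _ _ => Nat.zero_le _) fun i _ => hC i
    · intro x hx
      have hx' : ∀ i, ∃ c ∈ C i, x i ∈ closedBall c (L i * S.ρ j ^ α i) := by
        intro i
        obtain ⟨c, hc, hxc⟩ := mem_iUnion₂.1 (hE i (hx i))
        exact ⟨c, hc, hxc⟩
      choose c hc hxc using hx'
      refine mem_iUnion₂.2 ⟨c, Fintype.mem_piFinset.2 hc, ?_⟩
      have hρ := S.ρ_pos j
      have hsum : ∀ i, L i ≤ ∑ i, L i := fun i =>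
        Finset.single_le_sum (fun i _ => (hL i).le) (Finset.mem_univ i)
      have h0 : 0 ≤ ∑ i, L i := Finset.sum_nonneg fun i _ => (hL i).le
      rw [mem_closedBall, dist_pi_le_iff (by positivity)]
      intro i
      have h1 := mem_closedBall.1 (hxc i)
      refine h1.trans ?_
      have h2 : S.ρ j ^ α i ≤ S.ρ j ^ β := Real.rpow_le_rpow_of_exponent_ge hρ hj1 (hβ i)
      have h3 := hL i
      gcongr
      linarith [hsum i]

/-- thin sets have Hausdorff dimension zero -/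
lemma Thin.dim_eq {Z : Type*} [MetricSpace Z] {E : Set Z} (h : Thin S E) : dimH E = 0 := by
  classical
  borelize Z
  obtain ⟨m, L, α, hL, hα, h⟩ := h
  have key : ∀ n : ℕ, 1 ≤ n → μH[(n : ℝ)⁻¹] E = 0 := by
    intro n hn
    have hn0 : (0 : ℝ) < n := by exact_mod_cast hn
    have hd : (0 : ℝ) < (n : ℝ)⁻¹ := by positivity
    -- choose the covers
    have hch : ∀ j, ∃ C : Finset Z, ((∃ C : Finset Z, C.card ≤ S.K j ^ m ∧
        E ⊆ ⋃ c ∈ C, closedBall c (L * S.ρ j ^ α)) → C.card ≤ S.K j ^ m ∧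
        E ⊆ ⋃ c ∈ C, closedBall c (L * S.ρ j ^ α)) := by
      intro j
      by_cases hj : ∃ C : Finset Z, C.card ≤ S.K j ^ m ∧
        E ⊆ ⋃ c ∈ C, closedBall c (L * S.ρ j ^ α)
      · obtain ⟨C, hC⟩ := hj
        exact ⟨C, fun _ => hC⟩
      · exact ⟨∅, fun h => absurd h hj⟩
    choose C hC using hch
    have hC' : ∀ᶠ j in atTop, (C j).card ≤ S.K j ^ m ∧
        E ⊆ ⋃ c ∈ C j, closedBall c (L * S.ρ j ^ α) :=
      h.mono fun j hj => hC j hj
    have hdiam : ∀ j (c : C j), ediam (closedBall (c : Z) (L * S.ρ j ^ α)) ≤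
        ENNReal.ofReal (2 * (L * S.ρ j ^ α)) := by
      intro j c
      refine ediam_le_of_forall_dist_le fun x hx y hy => ?_
      rw [mem_closedBall] at hx hy
      have := dist_triangle_right x y (c : Z)
      linarith
    have hρ0 : Tendsto (fun j => ENNReal.ofReal (2 * (L * S.ρ j ^ α))) atTop (𝓝 0) := by
      have h0 : Tendsto (fun j => S.ρ j ^ α) atTop (𝓝 0) := by
        have := S.lim' 0 hα
        simpa using this
      have h1 : Tendsto (fun j => 2 * (L * S.ρ j ^ α)) atTop (𝓝 (2 * (L * 0))) :=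
        (h0.const_mul L).const_mul 2
      have h2 := ENNReal.tendsto_ofReal h1
      simpa using h2
    have hle := Measure.hausdorffMeasure_le_liminf_sum ((n : ℝ)⁻¹) E (l := atTop)
      (fun j => ENNReal.ofReal (2 * (L * S.ρ j ^ α))) hρ0
      (fun j (c : C j) => closedBall (c : Z) (L * S.ρ j ^ α))
      (Eventually.of_forall fun j c => hdiam j c)
      (hC'.mono fun j hj => by
        intro x hx
        obtain ⟨c, hc, hxc⟩ := mem_iUnion₂.1 (hj.2 hx)
        exact mem_iUnion.2 ⟨⟨c, hc⟩, hxc⟩)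
    refine le_antisymm (hle.trans ?_) zero_le
    have hlim : Tendsto (fun j => ENNReal.ofReal
        ((2 * L * (S.ρ j ^ α * (S.K j : ℝ) ^ (m * n))) ^ ((n : ℝ)⁻¹))) atTop (𝓝 0) := by
      have h1 : Tendsto (fun j => 2 * L * (S.ρ j ^ α * (S.K j : ℝ) ^ (m * n))) atTop
          (𝓝 (2 * L * 0)) := (S.lim' (m * n) hα).const_mul _
      have h2 := (h1.rpow_const (p := (n : ℝ)⁻¹) (Or.inr hd.le))
      have h3 := ENNReal.tendsto_ofReal h2
      simpa [hd.ne', Real.zero_rpow hd.ne'] using h3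
    have hbound : ∀ᶠ j in atTop,
        (∑ c : C j, ediam (closedBall (c : Z) (L * S.ρ j ^ α)) ^ ((n : ℝ)⁻¹)) ≤
        ENNReal.ofReal ((2 * L * (S.ρ j ^ α * (S.K j : ℝ) ^ (m * n))) ^ ((n : ℝ)⁻¹)) := by
      refine hC'.mono fun j hj => ?_
      have hρ := S.ρ_pos j
      calc (∑ c : C j, ediam (closedBall (c : Z) (L * S.ρ j ^ α)) ^ ((n : ℝ)⁻¹))
          ≤ ∑ c : C j, ENNReal.ofReal (2 * (L * S.ρ j ^ α)) ^ ((n : ℝ)⁻¹) :=
            Finset.sum_le_sum fun c _ => ENNReal.rpow_le_rpow (hdiam j c) hd.le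
        _ = ((C j).card : ℝ≥0∞) * ENNReal.ofReal (2 * (L * S.ρ j ^ α)) ^ ((n : ℝ)⁻¹) := by simp
        _ ≤ ((S.K j ^ m : ℕ) : ℝ≥0∞) * ENNReal.ofReal (2 * (L * S.ρ j ^ α)) ^ ((n : ℝ)⁻¹) := by
            gcongr
            exact hj.1
        _ = ENNReal.ofReal (((S.K j : ℝ) ^ m) * (2 * (L * S.ρ j ^ α)) ^ ((n : ℝ)⁻¹)) := by
            rw [ENNReal.ofReal_rpow_of_nonneg (by positivity) hd.le, ENNReal.ofReal_mul (by positivity)]
            congr 1
            rw [← Nat.cast_pow, ENNReal.ofReal_natCast]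
        _ = ENNReal.ofReal ((2 * L * (S.ρ j ^ α * (S.K j : ℝ) ^ (m * n))) ^ ((n : ℝ)⁻¹)) := by
            congr 1
            have h1 : 2 * L * (S.ρ j ^ α * (S.K j : ℝ) ^ (m * n)) =
                ((S.K j : ℝ) ^ m) ^ n * (2 * (L * S.ρ j ^ α)) := by
              rw [← pow_mul]
              ring
            rw [h1, Real.mul_rpow (x := ((S.K j : ℝ) ^ m) ^ n) (y := 2 * (L * S.ρ j ^ α))
              (by positivity) (by positivity), Real.pow_rpow_inv_natCast (by positivity) (by omega)]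
    calc _ ≤ liminf (fun j => ENNReal.ofReal
        ((2 * L * (S.ρ j ^ α * (S.K j : ℝ) ^ (m * n))) ^ ((n : ℝ)⁻¹))) atTop :=
          liminf_le_liminf hbound
      _ = 0 := hlim.liminf_eq
  -- conclusion
  have h0 : ∀ n : ℕ, 1 ≤ n → dimH E ≤ ((((n : ℝ≥0)⁻¹ : ℝ≥0)) : ℝ≥0∞) := by
    intro n hn
    refine dimH_le_of_hausdorffMeasure_ne_top ?_
    have h1 := key n hn
    have h2 : ((((n : ℝ≥0)⁻¹ : ℝ≥0)) : ℝ) = (n : ℝ)⁻¹ := by simp
    rw [h2, h1]
    exact ENNReal.zero_ne_top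
  have hlim : Tendsto (fun n : ℕ => ((((n : ℝ≥0)⁻¹ : ℝ≥0)) : ℝ≥0∞)) atTop (𝓝 0) := by
    have h1 : Tendsto (fun n : ℕ => ((n : ℝ≥0)⁻¹ : ℝ≥0)) atTop (𝓝 0) :=
      tendsto_inv_atTop_zero.comp tendsto_natCast_atTop_atTop
    rw [← ENNReal.coe_zero]
    exact ENNReal.tendsto_coe.2 h1
  exact le_antisymm (ge_of_tendsto hlim ((eventually_ge_atTop 1).mono h0)) zero_le

end Pool.Agent.TH463.FF
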